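import Mathlib
import Pool.Agent.H260.SE.Main

/-!
# Long prime-free intervals around the values of superelliptic polynomials at one point of every square

Let `f(Z) = log Z (log₂ Z)² log₄ Z / (log₃ Z)²` (iterated natural logarithms), the order of the prime gaps of
the starting file `MP_3bc45c_nt.RecordGaps`, the largest order proved so far; it exceeds the published record
`log Z log₂ Z log₄ Z / log₃ Z` of Ford, Green, Konyagin, Maynard and Tao by the factor `log₂ Z / log₃ Z`.

Let `F_j(x, y) = α_j y ^ (a_j) + Q_j(x)`, `j = 1, …, m`, where `α_j ≠ 0`, `a_j ≥ 1` are integers and `Q_j` is a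
polynomial with integer coefficients of a degree `≥ 1` prime to `a_j`, such that no two of them with the same
exponent satisfy `α_j F_i - α_i F_j = const`.  There is `c > 0` such that for all large `Z` every square of side
`Z` contains an integer point `(x, y)` such that every integer at distance at most `c f(Z)` from one of the
numbers `F_j(x, y)` has a prime factor `p ≤ Z ^ (1/10)`.  For example: for every `k` there are points `(x, y)` in
every large square such that all the `2 k + 1` numbers `B = y² - x³ - A x`, `|A| ≤ k`, lie in the middle of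
prime-free intervals of this record order; so `(x, y)` is a point of all the curves `y² = x³ + A x + B`.

Method.  A slice of `F_j = r` modulo `p` is `y ^ a = g(x)` with a polynomial `g` whose degree is prime to `a`, so
`g` is not a constant times a power `h ^ e` with `1 < e`, `e ∣ a`, and the number of the points is `p + O(√p)`,
uniformly in `r`, by Weil's bound for the sums `∑ χ(g(x))` (starting library, `Y837/SW`).  Two of the curves
`F_i = r`, `F_j = s` have boundedly many common points: eliminate `y`; the result does not vanish identically,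
for `a_i = a_j` because `α_j Q_i - α_i Q_j` is not constant, for `a_i ≠ a_j` because otherwise
`a_j deg Q_i = a_i deg Q_j`, which forces `a_i = a_j`.  These are the hypotheses of the general criterion
`Pool.Agent.Y837.SV.crit3` of the starting library (helper837).
-/

set_option autoImplicit false

namespace Pool.Agent.Results.MP_45ff98_nt.SuperellipticPolynomials

/-- The record scale `f(Z) = log Z (log₂ Z)² log₄ Z / (log₃ Z)²` (iterated natural logarithms). -/
noncomputable def f (Z : ℝ) : ℝ :=
  Real.log Z * (Real.log (Real.log Z)) ^ 2 * Real.log (Real.log (Real.log (Real.log Z))) /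
    (Real.log (Real.log (Real.log Z))) ^ 2

/-- **Long prime-free intervals around the values of superelliptic polynomials.**  Let `α_j ≠ 0`, `a_j ≥ 1`, and
let `Q_j` be integer polynomials of degrees `≥ 1` prime to `a_j`, such that `α_j Q_i - α_i Q_j` is not constant
whenever `i ≠ j`, `a_i = a_j`.  There is `c > 0` such that for all large `Z` every square
`(M, M + Z] × (N, N + Z]` contains an integer point `(x, y)` such that every integer `n` at distance at most
`c f(Z)` from one of the numbers `α_j y ^ (a_j) + Q_j(x)` has a prime factor `p ≤ Z ^ (1/10)`. -/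
theorem result {m : ℕ} (α : Fin m → ℤ) (a : Fin m → ℕ) (Q : Fin m → Polynomial ℤ)
    (hα : ∀ j, α j ≠ 0) (ha : ∀ j, a j ≠ 0) (hQ : ∀ j, 1 ≤ (Q j).natDegree)
    (hc : ∀ j, Nat.Coprime (a j) (Q j).natDegree)
    (hne : ∀ i j, i ≠ j → a i = a j → ∀ c : ℤ,
      Polynomial.C (α j) * Q i - Polynomial.C (α i) * Q j ≠ Polynomial.C c) :
    ∃ c : ℝ, 0 < c ∧ ∃ Z₀ : ℝ, ∀ Z : ℕ, Z₀ ≤ Z → ∀ M N : ℤ, ∃ x y : ℤ,
      (M < x ∧ x ≤ M + Z) ∧ (N < y ∧ y ≤ N + Z) ∧ ∀ j, ∀ n : ℤ,
        |(n : ℝ) - (α j * y ^ a j + (Q j).eval x : ℤ)| ≤ c * f Z →
          ∃ p : ℕ, p.Prime ∧ (p : ℝ) ≤ (Z : ℝ) ^ (1 / 10 : ℝ) ∧ (p : ℤ) ∣ n :=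
  Pool.Agent.H260.SE.main α a Q hα ha hQ hc hne

end Pool.Agent.Results.MP_45ff98_nt.SuperellipticPolynomials
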